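import Mathlib
import Pool.Agent.H95R2.BG.FormPrimes

/-! For some fixed `1 ≤ m ≤ 48` both `p` and `2^m p - (2^m - 1)` are prime infinitely often. -/

theorem Pool.Agent.Results.MP_0fefc4_nt.PowerOfTwoRatios.result :
    ∃ m : ℕ, 1 ≤ m ∧ m ≤ 48 ∧ ∀ ε : ℝ, 0 < ε → ∃ᶠ x : ℝ in Filter.atTop, x ^ (1 - ε) ≤
      (Set.ncard {p : ℕ | (p : ℝ) ≤ x ∧ p.Prime ∧ (2 ^ m * p - (2 ^ m - 1)).Prime} : ℝ) := by
  obtain ⟨i, j, hij, h⟩ := Pool.Agent.H95R2.BG.LF.forms49_primes (fun i => (2 : ℤ) ^ (i : ℕ)) (fun _ => 1)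
    (fun i => by positivity) (fun i j hij h => hij (by
      have h1 : (2 : ℤ) ^ (i : ℕ) = 2 ^ (j : ℕ) := by simpa using h
      have h2 : (2 : ℕ) ^ (i : ℕ) = 2 ^ (j : ℕ) := by exact_mod_cast h1
      exact Fin.ext (Nat.pow_right_injective le_rfl h2)))
    (fun p hp => ⟨0, fun i hd => by
      have h1 : (p : ℤ) ∣ 1 := by simpa using hd
      have h2 : p ∣ 1 := by exact_mod_cast h1
      exact hp.one_lt.ne' (Nat.dvd_one.mp h2)⟩)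
  have hij' : (i : ℕ) < j := hij
  have hj := j.isLt
  refine ⟨(j : ℕ) - i, by omega, by omega, fun ε hε => ?_⟩
  refine (h ε hε).mono fun x hx => hx.trans ?_
  have hfin : {p : ℕ | (p : ℝ) ≤ x ∧ p.Prime ∧
      (2 ^ ((j : ℕ) - i) * p - (2 ^ ((j : ℕ) - i) - 1)).Prime}.Finite := by
    apply (Set.finite_Iic ⌊x⌋₊).subset
    rintro n ⟨hn, -⟩
    rw [Set.mem_Iic]
    exact Nat.le_floor hn
  have hsub : {p : ℕ | (p : ℝ) ≤ x ∧ p.Prime ∧ ∃ n q : ℕ, q.Prime ∧ (p : ℤ) = 2 ^ (i : ℕ) * n + 1 ∧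
      (q : ℤ) = 2 ^ (j : ℕ) * n + 1} ⊆ {p : ℕ | (p : ℝ) ≤ x ∧ p.Prime ∧
      (2 ^ ((j : ℕ) - i) * p - (2 ^ ((j : ℕ) - i) - 1)).Prime} := by
    rintro p ⟨hp1, hp2, n, q, hq, h3, h4⟩
    refine ⟨hp1, hp2, ?_⟩
    have h5 : p = 2 ^ (i : ℕ) * n + 1 := by exact_mod_cast h3
    have h6 : q = 2 ^ (j : ℕ) * n + 1 := by exact_mod_cast h4
    have h7 : (2 : ℕ) ^ (j : ℕ) = 2 ^ ((j : ℕ) - i) * 2 ^ (i : ℕ) := by
      rw [← pow_add]; congr 1; omega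
    have h8 : 0 < (2 : ℕ) ^ ((j : ℕ) - i) := by positivity
    have h9 : 2 ^ ((j : ℕ) - i) * p - (2 ^ ((j : ℕ) - i) - 1) = q := by
      rw [h5, h6, h7]
      have : 2 ^ ((j : ℕ) - i) * (2 ^ (i : ℕ) * n + 1) = 2 ^ ((j : ℕ) - i) * 2 ^ (i : ℕ) * n + 2 ^ ((j : ℕ) - i) := by
        ring
      omega
    rw [h9]
    exact hq
  exact_mod_cast Set.ncard_le_ncard hsub hfin
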