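import Mathlib
import Pool.Agent.H447R3.IT.Iter

/-! A quarter of the iterates of `x ↦ 2 x - 1` send infinitely many primes to primes. -/

theorem Pool.Agent.Results.MP_0fefc4_nt.QuarterOfIterates.result :
    ∀ ε : ℝ, 0 < ε → ∃ N0 : ℕ, ∀ N ≥ N0, (1 / 4 - ε) * (N : ℝ) ≤
      ({j : ℕ | 1 ≤ j ∧ j ≤ N ∧
        {p : ℕ | p.Prime ∧ 0 < (fun x : ℤ => 2 * x - 1)^[j] (p : ℤ) ∧
          Prime ((fun x : ℤ => 2 * x - 1)^[j] (p : ℤ))}.Infinite}.ncard : ℝ) := by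
  intro ε hε
  have h := Pool.Agent.H447R3.IT.iter_density 2 (-1) 1 le_rfl
    (by norm_num) one_pos (by
      intro p hp hd
      exact absurd hd (by simpa using hp.one_lt.ne')) ε hε
  simpa [sub_eq_add_neg] using h
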